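import Pool.Agent.W662.SK.StmtsA

/-! Project SK (helper662), part PA (helper28): near representations. -/

set_option autoImplicit false

open scoped InnerProductSpace ENNReal

namespace Pool.Agent.W28.SK

open Pool.Agent.W662.SK

theorem cs_ge (t : ℝ) (h0 : 0 ≤ t) (h1 : t ≤ 9 / 10) : 2 / 5 ≤ cs t := by
  unfold cs
  apply Real.le_sqrt_of_sq_le
  nlinarith

theorem cs_lip (t r : ℝ) (h0 : 0 ≤ t) (h1 : t ≤ 9 / 10) (h2 : 0 ≤ r) (h3 : r ≤ 9 / 10) :
    |cs t - cs r| ≤ 3 * |t - r| := by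
  have e1 : cs t ^ 2 = 1 - t ^ 2 := by
    unfold cs; rw [Real.sq_sqrt (by nlinarith)]
  have e2 : cs r ^ 2 = 1 - r ^ 2 := by
    unfold cs; rw [Real.sq_sqrt (by nlinarith)]
  have g1 := cs_ge t h0 h1
  have g2 := cs_ge r h2 h3
  have h5 : |cs t - cs r| * (cs t + cs r) = |t - r| * (t + r) := by
    rw [← abs_of_nonneg (by linarith : 0 ≤ cs t + cs r), ← abs_mul,
      ← abs_of_nonneg (by linarith : 0 ≤ t + r), ← abs_mul,
      show (cs t - cs r) * (cs t + cs r) = -((t - r) * (t + r)) by nlinarith, abs_neg]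
  have h6 := abs_nonneg (cs t - cs r)
  have h7 := abs_nonneg (t - r)
  nlinarith

theorem dist_le (h7 : S_A7) (t r : ℝ) (h0 : 0 ≤ t) (h1 : t ≤ 9 / 10) (h2 : 0 ≤ r)
    (h3 : r ≤ 9 / 10) (g : G3) : ‖cl (rp t g) - cl (rp r g)‖ ≤ 521 * |t - r| := by
  have h := h7 t r h0 (by linarith) h2 (by linarith) g
  have hl := cs_lip t r h0 h1 h2 h3
  have b1 : 2 / (1 - t) ≤ 20 := by rw [div_le_iff₀ (by linarith)]; linarith
  have b2 : 2 / (1 - r) ≤ 20 := by rw [div_le_iff₀ (by linarith)]; linarith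
  have b3 : 4 / ((1 - t) * (1 - r)) ≤ 400 := by
    rw [div_le_iff₀ (by nlinarith)]; nlinarith
  have h6 := abs_nonneg (cs t - cs r)
  have h8 := abs_nonneg (t - r)
  calc _ ≤ |cs t - cs r| * (2 / (1 - t) + 2 / (1 - r)) +
        |t - r| * (4 / ((1 - t) * (1 - r)) + 1) := h
    _ ≤ |cs t - cs r| * 40 + |t - r| * 401 := by
        apply add_le_add
        · exact mul_le_mul_of_nonneg_left (by linarith) h6
        · exact mul_le_mul_of_nonneg_left (by linarith) h8
    _ ≤ _ := by linarith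

theorem pa (h7 : S_A7) (h8 : S_A8) (h9 : S_A9) : S_PA := by
  classical
  intro ε hε
  obtain ⟨N, hN⟩ := exists_nat_gt (521 / ε)
  have hN0 : (0 : ℝ) < N := lt_trans (by positivity) hN
  have hNN : 0 < N := by exact_mod_cast hN0
  let T : ℕ → ℝ := fun k => 9 / 10 * ((k : ℝ) / N)
  have hT0 : T 0 = 0 := by simp [T]
  have hTN : T N = 9 / 10 := by simp only [T]; rw [div_self hN0.ne', mul_one]
  have hex : ∃ k, ¬ WC (rp (T k)) := ⟨N, by rw [hTN]; exact h9⟩
  have hle : Nat.find hex ≤ N := Nat.find_le (by rw [hTN]; exact h9)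
  have hne : Nat.find hex ≠ 0 := by
    intro h0
    have := Nat.find_spec hex
    rw [h0, hT0] at this
    exact this h8
  obtain ⟨j, hj⟩ := Nat.exists_eq_succ_of_ne_zero hne
  have hj1 : WC (rp (T j)) := by
    have := Nat.find_min hex (m := j) (by omega)
    exact not_not.mp this
  have hj2 : ¬ WC (rp (T (j + 1))) := by
    have := Nat.find_spec hex
    rw [hj] at this
    exact this
  refine ⟨rp (T j), rp (T (j + 1)), fun g => ?_, hj1, hj2⟩
  have hjN : j + 1 ≤ N := by omega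
  have hb : ∀ k : ℕ, k ≤ N → 0 ≤ T k ∧ T k ≤ 9 / 10 := by
    intro k hk
    have hk' : (k : ℝ) ≤ N := by exact_mod_cast hk
    have h1 : (k : ℝ) / N ≤ 1 := by rw [div_le_one hN0]; exact hk'
    have h2 : 0 ≤ (k : ℝ) / N := by positivity
    simp only [T]
    constructor <;> linarith
  have h1 := dist_le h7 (T j) (T (j + 1)) (hb j (by omega)).1 (hb j (by omega)).2
    (hb _ hjN).1 (hb _ hjN).2 g
  have h2 : |T j - T (j + 1)| = 9 / 10 * (1 / N) := by
    have : T j - T (j + 1) = -(9 / 10 * (1 / N)) := by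
      simp only [T]; push_cast; ring
    rw [this, abs_neg, abs_of_nonneg (by positivity)]
  rw [h2] at h1
  have h3 : 521 / (N : ℝ) ≤ ε := by
    rw [div_lt_iff₀ hε] at hN
    rw [div_le_iff₀ hN0]
    linarith
  calc _ ≤ 521 * (9 / 10 * (1 / (N : ℝ))) := h1
    _ = 9 / 10 * (521 / (N : ℝ)) := by ring
    _ ≤ ε := by nlinarith

end Pool.Agent.W28.SK
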